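import Pool.Agent.H495R2.PCFQuad

set_option autoImplicit false

namespace Pool.Agent.Results.MP_505b57_nt.QuadraticFinite

open Polynomial

/-- Polynomials of degree exactly `d` over the field `K`. -/
def PolyOfDegree (K : Type) [Field K] (d : ℕ) : Type := {f : K[X] // f.natDegree = d}

/-- `f` and `g` are conjugate by an affine map: `f ∘ L = L ∘ g` for some `L(z) = a z + b`,
`a ≠ 0`. -/
def AffConj {K : Type} [Field K] (f g : K[X]) : Prop :=
  ∃ a b : K, a ≠ 0 ∧ f.comp (C a * X + C b) = C a * g + C b

/-- The polynomial map `f` is postcritically finite: every critical point (zero of the derivative)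
has a finite forward orbit. (The point at infinity is fixed.) -/
def IsPCF {K : Type} [Field K] (f : K[X]) : Prop :=
  ∀ z : K, (derivative f).eval z = 0 →
    (Set.range fun n : ℕ => (fun w : K => f.eval w)^[n] z).Finite

lemma affConj_refl {K : Type} [Field K] (f : K[X]) : AffConj f f :=
  ⟨1, 0, one_ne_zero, by simp⟩

lemma affConj_symm {K : Type} [Field K] {f g : K[X]} (h : AffConj f g) : AffConj g f := by
  obtain ⟨a, b, ha, h⟩ := h
  refine ⟨a⁻¹, -(a⁻¹ * b), inv_ne_zero ha, ?_⟩
  have h1 : (C a * X + C b : K[X]).comp (C a⁻¹ * X + C (-(a⁻¹ * b))) = X := by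
    have e : (C a * C a⁻¹ : K[X]) = 1 := by rw [← C_mul, mul_inv_cancel₀ ha, C_1]
    simp only [add_comp, mul_comp, C_comp, X_comp, map_neg, map_mul]
    linear_combination (X - C b) * e
  have h2 := congrArg (fun P : K[X] => P.comp (C a⁻¹ * X + C (-(a⁻¹ * b)))) h
  simp only [comp_assoc, h1, comp_X, add_comp, mul_comp, C_comp] at h2
  have e : (C a⁻¹ * C a : K[X]) = 1 := by rw [← C_mul, inv_mul_cancel₀ ha, C_1]
  rw [h2]
  simp only [map_neg, map_mul]
  linear_combination (-(g.comp (C a⁻¹ * X + -(C a⁻¹ * C b)))) * e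

lemma affConj_trans {K : Type} [Field K] {f g h : K[X]} (h1 : AffConj f g) (h2 : AffConj g h) :
    AffConj f h := by
  obtain ⟨a, b, ha, h1⟩ := h1
  obtain ⟨a', b', ha', h2⟩ := h2
  refine ⟨a * a', a * b' + b, mul_ne_zero ha ha', ?_⟩
  have e : (C (a * a') * X + C (a * b' + b) : K[X]) =
      (C a * X + C b : K[X]).comp (C a' * X + C b') := by
    simp only [add_comp, mul_comp, C_comp, X_comp, map_add, map_mul]; ring
  rw [e, ← comp_assoc, h1, add_comp, mul_comp, C_comp, C_comp, h2]
  simp only [map_add, map_mul]; ring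

/-- Affine conjugacy on polynomials of degree `d`. -/
instance conjSetoid (K : Type) [Field K] (d : ℕ) : Setoid (PolyOfDegree K d) where
  r f g := AffConj f.1 g.1
  iseqv := ⟨fun f => affConj_refl f.1, fun h => affConj_symm h, fun h1 h2 => affConj_trans h1 h2⟩

/-- The geometric points of the moduli space `P_d`: conjugacy classes of degree `d` polynomials
over the (algebraically closed) field `K`. -/
def Moduli (K : Type) [Field K] (d : ℕ) : Type := Quotient (conjSetoid K d)

/-- The action of a field automorphism on the points of the moduli space. -/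
noncomputable def galAct {K : Type} [Field K] (d : ℕ) (σ : K ≃+* K) : Moduli K d → Moduli K d :=
  Quotient.map (fun f => ⟨f.1.map (σ : K →+* K), by
    rw [natDegree_map_eq_of_injective σ.injective]; exact f.2⟩) (by
    rintro ⟨f, hf⟩ ⟨g, hg⟩ ⟨a, b, ha, h⟩
    refine ⟨σ a, σ b, (map_ne_zero_iff _ σ.injective).2 ha, ?_⟩
    have h2 := congrArg (Polynomial.map (σ : K →+* K)) h
    simpa [Polynomial.map_comp] using h2)

/-- `P_d(ℚ_p)`: the points of the moduli space over the algebraic closure of `ℚ_p` that are fixed by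
the absolute Galois group of `ℚ_p`. -/
def RationalPoints (p : ℕ) [Fact p.Prime] (d : ℕ) : Set (Moduli (AlgebraicClosure ℚ_[p]) d) :=
  {x | ∀ σ : AlgebraicClosure ℚ_[p] ≃ₐ[ℚ_[p]] AlgebraicClosure ℚ_[p], galAct d σ.toRingEquiv x = x}

/-- The conjugacy classes of postcritically finite polynomials. -/
def PCF (K : Type) [Field K] (d : ℕ) : Set (Moduli K d) :=
  {x | ∃ f : PolyOfDegree K d, (Quotient.mk (conjSetoid K d) f : Moduli K d) = x ∧ IsPCF f.1}

/-- Normal form of quadratic polynomials. -/
lemma quad_normal {K : Type} [Field K] [Infinite K] (h2 : (2 : K) ≠ 0) (f : K[X])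
    (hf : f.natDegree = 2) : ∃ c : K, AffConj f (X ^ 2 + C c) := by
  have ha : f.coeff 2 ≠ 0 := by
    intro h
    have h3 : f.leadingCoeff = 0 := by rw [leadingCoeff, hf, h]
    rw [leadingCoeff_eq_zero] at h3
    rw [h3] at hf
    simp at hf
  have hform : f = C (f.coeff 2) * X ^ 2 + C (f.coeff 1) * X + C (f.coeff 0) :=
    eq_quadratic_of_degree_le_two (natDegree_le_iff_degree_le.1 hf.le)
  generalize f.coeff 2 = α at ha hform
  generalize f.coeff 1 = β at hform
  generalize f.coeff 0 = γ at hform
  refine ⟨α * γ + β / 2 - β ^ 2 / 4, α⁻¹, -(β / (2 * α)), inv_ne_zero ha, ?_⟩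
  have h4 : (4 : K) ≠ 0 := by
    have : (4 : K) = 2 * 2 := by norm_num
    rw [this]; exact mul_ne_zero h2 h2
  rw [hform]
  apply Polynomial.funext
  intro r
  simp only [eval_comp, eval_add, eval_mul, eval_C, eval_X, eval_pow]
  field_simp
  ring

/-- The parameter of the normal form is unique. -/
lemma quad_unique {K : Type} [Field K] (h2 : (2 : K) ≠ 0) {c c' : K}
    (h : AffConj (X ^ 2 + C c) (X ^ 2 + C c')) : c = c' := by
  obtain ⟨a, b, ha, h⟩ := h
  have e0 := congrArg (eval 0) h
  have e1 := congrArg (eval 1) h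
  have e2 := congrArg (eval (-1)) h
  simp only [eval_comp, eval_add, eval_mul, eval_C, eval_X, eval_pow] at e0 e1 e2
  have h4 : (2 : K) * (2 * (a * b)) = 0 := by linear_combination e1 - e2
  have hb : b = 0 := by
    rcases mul_eq_zero.1 h4 with h | h
    · exact absurd h h2
    · rcases mul_eq_zero.1 h with h | h
      · exact absurd h h2
      · exact (mul_eq_zero.1 h).resolve_left ha
  subst hb
  have h5 : a * (a - 1) = 0 := by linear_combination e1 - e0
  have ha1 : a = 1 := sub_eq_zero.1 ((mul_eq_zero.1 h5).resolve_left ha)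
  subst ha1
  linear_combination e0

/-- Postcritical finiteness is invariant under conjugacy. -/
lemma isPCF_of_affConj {K : Type} [Field K] {f g : K[X]} (h : AffConj f g) (hf : IsPCF f) :
    IsPCF g := by
  obtain ⟨a, b, ha, h⟩ := h
  intro z hz
  have hev : ∀ w : K, f.eval (a * w + b) = a * g.eval w + b := by
    intro w
    have := congrArg (eval w) h
    simpa [eval_comp] using this
  have hcrit : (derivative f).eval (a * z + b) = 0 := by
    have h1 := congrArg (fun P : K[X] => (derivative P).eval z) h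
    simp only [derivative_comp, derivative_add, derivative_mul, derivative_C, derivative_X,
      eval_add, eval_mul, eval_comp, eval_C, eval_X, hz, eval_zero, eval_one] at h1
    have h2 : a * (derivative f).eval (a * z + b) = 0 := by linear_combination h1
    exact (mul_eq_zero.1 h2).resolve_left ha
  have hfin := hf _ hcrit
  have hiter : ∀ n : ℕ, (fun w : K => f.eval w)^[n] (a * z + b) =
      a * (fun w : K => g.eval w)^[n] z + b := by
    intro n
    induction n with
    | zero => rfl
    | succ n ih =>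
      rw [Function.iterate_succ_apply', Function.iterate_succ_apply', ih]
      exact hev _
  have hinj : Function.Injective fun w : K => a * w + b := by
    intro x y hxy
    exact mul_left_cancel₀ ha (add_right_cancel hxy)
  refine Set.Finite.of_finite_image (f := fun w : K => a * w + b) (hfin.subset ?_)
    hinj.injOn
  rintro _ ⟨_, ⟨n, rfl⟩, rfl⟩
  exact ⟨n, hiter n⟩

/-- Galois-invariant postcritically finite classes of quadratic polynomials come from parameters in
the base field with finite critical orbit. -/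
lemma subset_image {k K : Type} [Field k] [Field K] [Algebra k K] [IsGalois k K] [Infinite K]
    (h2 : (2 : K) ≠ 0) (F : k → Moduli K 2)
    (hF : ∀ c, F c = Quotient.mk (conjSetoid K 2)
      (⟨X ^ 2 + C (algebraMap k K c), natDegree_X_pow_add_C⟩ : PolyOfDegree K 2))
    (x : Moduli K 2) (hx1 : ∀ σ : K ≃ₐ[k] K, galAct 2 σ.toRingEquiv x = x) (hx2 : x ∈ PCF K 2) :
    x ∈ F '' {c : k | (Set.range fun n : ℕ => (Pool.Agent.H495R2.PCFQuad.q c)^[n] 0).Finite} := by
  obtain ⟨f, hfx, hf⟩ := hx2
  obtain ⟨c, hc⟩ := quad_normal h2 f.1 f.2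
  have hfx' : (Quotient.mk (conjSetoid K 2) (⟨X ^ 2 + C c, natDegree_X_pow_add_C⟩ :
      PolyOfDegree K 2) : Moduli K 2) = x := by
    rw [← hfx]
    exact (Quotient.sound (s := conjSetoid K 2) (a := f)
      (b := (⟨X ^ 2 + C c, natDegree_X_pow_add_C⟩ : PolyOfDegree K 2)) hc).symm
  -- the parameter is rational
  have hfix : ∀ σ : K ≃ₐ[k] K, σ c = c := by
    intro σ
    have h1 := hx1 σ
    rw [← hfx'] at h1
    have h3 := Quotient.exact (s := conjSetoid K 2) h1
    have h4 : AffConj ((X ^ 2 + C c : K[X]).map (σ.toRingEquiv : K →+* K)) (X ^ 2 + C c) := h3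
    have h5 : (X ^ 2 + C c : K[X]).map (σ.toRingEquiv : K →+* K) = X ^ 2 + C (σ c) := by
      simp
    rw [h5] at h4
    exact quad_unique h2 h4
  obtain ⟨c0, hc0⟩ := (InfiniteGalois.mem_range_algebraMap_iff_fixed c).2 hfix
  refine ⟨c0, ?_, ?_⟩
  · -- the critical orbit is finite
    have h1 := isPCF_of_affConj hc hf 0 (by simp)
    have hinj : Function.Injective (algebraMap k K) := (algebraMap k K).injective
    refine Set.Finite.of_finite_image (f := algebraMap k K) (h1.subset ?_) hinj.injOn
    rintro _ ⟨_, ⟨n, rfl⟩, rfl⟩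
    refine ⟨n, ?_⟩
    have h3 := Pool.Agent.H495R2.PCFQuad.map_q_iter (algebraMap k K) c0 0 n
    rw [map_zero, hc0] at h3
    change _ = algebraMap k K ((Pool.Agent.H495R2.PCFQuad.q c0)^[n] 0)
    rw [h3]
    have h6 : (fun w : K => (X ^ 2 + C c : K[X]).eval w) = Pool.Agent.H495R2.PCFQuad.q c := by
      funext w; simp [Pool.Agent.H495R2.PCFQuad.q]
    change (fun w => (X ^ 2 + C c : K[X]).eval w)^[n] 0 = _
    rw [h6]
  · rw [hF, ← hfx']
    subst hc0
    rfl

/-- For every prime `p` the set `P_2(ℚ_p) ∩ PCF` is finite. -/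
theorem result : ∀ (p : ℕ) [Fact p.Prime],
    (RationalPoints p 2 ∩ PCF (AlgebraicClosure ℚ_[p]) 2).Finite := by
  intro p hp
  have h2 : (2 : AlgebraicClosure ℚ_[p]) ≠ 0 := two_ne_zero
  refine ((Pool.Agent.H495R2.PCFQuad.finite_parameters p).image (fun c : ℚ_[p] =>
    (Quotient.mk (conjSetoid (AlgebraicClosure ℚ_[p]) 2)
      (⟨X ^ 2 + C (algebraMap ℚ_[p] (AlgebraicClosure ℚ_[p]) c), natDegree_X_pow_add_C⟩ :
        PolyOfDegree (AlgebraicClosure ℚ_[p]) 2) :
          Moduli (AlgebraicClosure ℚ_[p]) 2))).subset ?_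
  rintro x ⟨hx1, hx2⟩
  exact subset_image h2 _ (fun c => rfl) x hx1 hx2

end Pool.Agent.Results.MP_505b57_nt.QuadraticFinite
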